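import Pool.Agent.W223.HZ.Stms

set_option autoImplicit false

namespace Pool.Agent.W768.HZ

open Pool.Agent.W223.HZ

theorem key {R : ℝ} (hR : 20 ≤ R) {k x y u v : ℤ} (hk : |(k : ℝ)| ≤ R ^ 4)
    (he : y ^ 2 = x ^ 3 + k) (hx : R ^ (3 : ℕ) ≤ (x : ℝ)) (hc : IsCoprime u v) (hv : 1 ≤ v)
    (ha : |(u : ℝ) - √(x : ℝ) * v| * √(x : ℝ) ≤ R)
    (h0 : u ^ 3 - 3 * x * u * v ^ 2 + 2 * y * v ^ 3 = 0) :
    ∃ p : ℤ × ℤ, |(p.1 : ℝ)| ≤ 2 * R ^ 2 ∧ |(p.2 : ℝ)| ≤ 3 * R ∧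
      4 * k = -p.2 ^ 2 * (3 * p.1 ^ 2 + 4 * p.2) := by
  have hv1 : v = 1 := by
    have h1 : v ∣ u ^ 3 := ⟨3 * x * u * v - 2 * y * v ^ 2, by linear_combination h0⟩
    have h2 : IsCoprime (u ^ 3) v := hc.pow_left
    have h3 : IsUnit v := h2.symm.isUnit_of_dvd' (dvd_refl v) h1
    rcases Int.isUnit_iff.1 h3 with h | h
    · exact h
    · omega
  subst hv1
  set r : ℤ := x - u ^ 2 with hr
  have hxr : x = u ^ 2 + r := by rw [hr]; ring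
  have h2y : 2 * y = 2 * u ^ 3 + 3 * r * u := by
    have : 2 * y = 3 * x * u - u ^ 3 := by linear_combination h0
    rw [this, hxr]; ring
  have h4k : 4 * k = -r ^ 2 * (3 * u ^ 2 + 4 * r) := by
    have : 4 * k = (2 * y) ^ 2 - 4 * x ^ 3 := by linear_combination -4 * he
    rw [this, h2y, hxr]; ring
  -- real estimates
  have hR0 : 0 < R := by linarith
  have hx0 : 0 < (x : ℝ) := lt_of_lt_of_le (by positivity) hx
  set α : ℝ := √(x : ℝ) with hα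
  have hα0 : 0 < α := Real.sqrt_pos.2 hx0
  have hα2 : α ^ 2 = x := Real.sq_sqrt hx0.le
  have ha' : |(u : ℝ) - α| * α ≤ R := by simpa using ha
  have hrr : (r : ℝ) = α ^ 2 - (u : ℝ) ^ 2 := by rw [hα2, hr]; push_cast; ring
  -- d = |u - α|
  have hd0 : 0 ≤ |(u : ℝ) - α| := abs_nonneg _
  have hdsq : |(u : ℝ) - α| ^ 2 ≤ R := by
    -- (d α)² ≤ R², α² ≥ R³ ⇒ d² ≤ 1 / R ≤ R
    have h1 : |(u : ℝ) - α| ^ 2 * α ^ 2 ≤ R ^ 2 := by
      have := mul_self_le_mul_self (mul_nonneg hd0 hα0.le) ha'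
      nlinarith
    have h2 : R ^ 3 ≤ α ^ 2 := by rw [hα2]; exact hx
    by_contra hcon
    push Not at hcon
    have h3 : R * R ^ 3 < |(u : ℝ) - α| ^ 2 * α ^ 2 :=
      mul_lt_mul hcon h2 (by positivity) (sq_nonneg _)
    have h4 : R ^ 2 ≤ R * R ^ 3 := by
      have : R * R ^ 3 = R ^ 2 * R ^ 2 := by ring
      rw [this]
      have : 1 ≤ R ^ 2 := by nlinarith
      nlinarith [sq_nonneg R]
    linarith
  have hrabs : |(r : ℝ)| ≤ 3 * R := by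
    rw [hrr]
    have e1 : α ^ 2 - (u : ℝ) ^ 2 = -(((u : ℝ) - α) * (2 * α) + ((u : ℝ) - α) ^ 2) := by ring
    rw [e1, abs_neg]
    calc |((u : ℝ) - α) * (2 * α) + ((u : ℝ) - α) ^ 2|
        ≤ |((u : ℝ) - α) * (2 * α)| + |((u : ℝ) - α) ^ 2| := abs_add_le _ _
      _ = 2 * (|(u : ℝ) - α| * α) + |(u : ℝ) - α| ^ 2 := by
          rw [abs_mul, abs_of_pos (by positivity : (0:ℝ) < 2 * α), abs_pow]; ring
      _ ≤ 2 * R + R := by linarith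
      _ = 3 * R := by ring
  have hu2 : 12 * R ≤ (u : ℝ) ^ 2 := by
    have h1 : (u : ℝ) ^ 2 = x - r := by rw [hrr, hα2]; ring
    have h2 := (abs_le.1 hrabs).2
    have h3 : 15 * R ≤ R ^ 3 := by nlinarith [sq_nonneg R]
    rw [h1]; linarith
  by_cases hr0 : r = 0
  · refine ⟨(0, 0), by simp; positivity, by simp; positivity, ?_⟩
    rw [h4k, hr0]; ring
  · refine ⟨(u, r), ?_, hrabs, h4k⟩
    have hr1 : (1 : ℝ) ≤ (r : ℝ) ^ 2 := by
      have : (1 : ℤ) ≤ r ^ 2 := by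
        have := sq_pos_of_ne_zero hr0
        omega
      exact_mod_cast this
    have h4kR : 4 * (k : ℝ) = -(r : ℝ) ^ 2 * (3 * (u : ℝ) ^ 2 + 4 * r) := by exact_mod_cast h4k
    have h5 : 2 * (u : ℝ) ^ 2 ≤ 3 * (u : ℝ) ^ 2 + 4 * r := by
      have := (abs_le.1 hrabs).1; linarith
    have h6 : (r : ℝ) ^ 2 * (3 * (u : ℝ) ^ 2 + 4 * r) ≤ 4 * R ^ 4 := by
      have := (abs_le.1 hk).1
      nlinarith
    have h7 : 2 * (u : ℝ) ^ 2 ≤ (r : ℝ) ^ 2 * (3 * (u : ℝ) ^ 2 + 4 * r) := by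
      have h8 : 0 ≤ 3 * (u : ℝ) ^ 2 + 4 * r := le_trans (by positivity) h5
      nlinarith
    have h9 : (u : ℝ) ^ 2 ≤ (2 * R ^ 2) ^ 2 := by nlinarith [sq_nonneg (R ^ 2)]
    exact abs_le_of_sq_le_sq' h9 (by positivity) |> fun h => abs_le.2 h

theorem t : StmtCA0 := by
  intro R hR
  have hR0 : 0 < R := by linarith
  set S : Set ℤ := {k : ℤ | |(k : ℝ)| ≤ R ^ 4 ∧ ∃ x y u v : ℤ, y ^ 2 = x ^ 3 + k ∧ 0 ≤ y ∧
    R ^ (3 : ℕ) ≤ (x : ℝ) ∧ IsCoprime u v ∧ 1 ≤ v ∧ |(u : ℝ) - √(x : ℝ) * v| * √(x : ℝ) ≤ R ∧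
    u ^ 3 - 3 * x * u * v ^ 2 + 2 * y * v ^ 3 = 0} with hS
  set A : ℤ := ⌊2 * R ^ 2⌋
  set B : ℤ := ⌊3 * R⌋
  set T : Finset ℤ := (Finset.Icc (-A) A ×ˢ Finset.Icc (-B) B).image
    (fun p : ℤ × ℤ => (-p.2 ^ 2 * (3 * p.1 ^ 2 + 4 * p.2)) / 4) with hT
  have hsub : S ⊆ (T : Set ℤ) := by
    rintro k ⟨hk, x, y, u, v, he, hy, hx, hc, hv, ha, h0⟩
    obtain ⟨p, hp1, hp2, hp⟩ := key hR hk he hx hc hv ha h0
    rw [Finset.mem_coe, hT, Finset.mem_image]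
    refine ⟨p, ?_, ?_⟩
    · rw [Finset.mem_product, Finset.mem_Icc, Finset.mem_Icc]
      have g1 : |p.1| ≤ A := Int.le_floor.2 (by push_cast; exact hp1)
      have g2 : |p.2| ≤ B := Int.le_floor.2 (by push_cast; exact hp2)
      exact ⟨abs_le.1 g1, abs_le.1 g2⟩
    · show (-p.2 ^ 2 * (3 * p.1 ^ 2 + 4 * p.2)) / 4 = k
      rw [← hp]
      exact Int.mul_ediv_cancel_left k (by norm_num)
  refine ⟨T.finite_toSet.subset hsub, ?_⟩
  have h1 : S.ncard ≤ T.card := by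
    rw [← Set.ncard_coe_finset]
    exact Set.ncard_le_ncard hsub T.finite_toSet
  have h2 : T.card ≤ (Finset.Icc (-A) A ×ˢ Finset.Icc (-B) B).card := Finset.card_image_le
  have hA0 : 0 ≤ A := Int.floor_nonneg.2 (by positivity)
  have hB0 : 0 ≤ B := Int.floor_nonneg.2 (by positivity)
  have h3 : ((Finset.Icc (-A) A ×ˢ Finset.Icc (-B) B).card : ℝ) =
      (2 * A + 1) * (2 * B + 1) := by
    rw [Finset.card_product, Int.card_Icc, Int.card_Icc]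
    push_cast
    have e1 : (((A + 1 - -A).toNat : ℕ) : ℝ) = 2 * A + 1 := by
      have : ((A + 1 - -A).toNat : ℤ) = 2 * A + 1 := by omega
      exact_mod_cast this
    have e2 : (((B + 1 - -B).toNat : ℕ) : ℝ) = 2 * B + 1 := by
      have : ((B + 1 - -B).toNat : ℤ) = 2 * B + 1 := by omega
      exact_mod_cast this
    rw [e1, e2]
  have h4 : (A : ℝ) ≤ 2 * R ^ 2 := Int.floor_le _
  have h5 : (B : ℝ) ≤ 3 * R := Int.floor_le _
  have hA0' : (0 : ℝ) ≤ A := by exact_mod_cast hA0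
  have hB0' : (0 : ℝ) ≤ B := by exact_mod_cast hB0
  calc (S.ncard : ℝ) ≤ T.card := by exact_mod_cast h1
    _ ≤ ((Finset.Icc (-A) A ×ˢ Finset.Icc (-B) B).card : ℝ) := by exact_mod_cast h2
    _ = (2 * A + 1) * (2 * B + 1) := h3
    _ ≤ (2 * (2 * R ^ 2) + 1) * (2 * (3 * R) + 1) := by
        apply mul_le_mul (by linarith) (by linarith) (by linarith) (by positivity)
    _ ≤ 100 * R ^ 3 := by
        have : R ^ 2 ≤ R ^ 3 := by nlinarith [sq_nonneg R]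
        have : R ≤ R ^ 3 := by nlinarith [sq_nonneg R]
        nlinarith

end Pool.Agent.W768.HZ
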